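import Mathlib

/-!
# Core-free subgroups of small index
-/

set_option autoImplicit false

namespace Pool.Agent.U902.ML

/-- a core-free subgroup of a normal subgroup `N ≅ T` of `X` is a core-free subgroup of `X` -/
theorem core_up {X : Type} [Group X] (N : Subgroup X) [N.Normal] {T : Type} [Group T] (e : N ≃* T)
    (V : Subgroup T) (hV : V.normalCore = ⊥) :
    ∃ U : Subgroup X, U.normalCore = ⊥ ∧ U.index = V.index * N.index := by
  refine ⟨(V.comap e.toMonoidHom).map N.subtype, ?_, ?_⟩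
  · rw [eq_bot_iff]
    intro x hx
    rw [Subgroup.mem_bot]
    have hxU := Subgroup.normalCore_le _ hx
    obtain ⟨y, hy, rfl⟩ := Subgroup.mem_map.1 hxU
    have h1 : e y ∈ V.normalCore := by
      intro t
      have h2 := hx ((e.symm t : N) : X)
      obtain ⟨z, hz, hz2⟩ := Subgroup.mem_map.1 h2
      have h3 : z = e.symm t * y * (e.symm t)⁻¹ := Subtype.ext (by simpa using hz2)
      rw [Subgroup.mem_comap, h3] at hz
      simpa using hz
    rw [hV, Subgroup.mem_bot] at h1
    have h4 : y = 1 := by simpa using h1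
    simp [h4]
  · rw [Subgroup.index_map_subtype, Subgroup.index_comap_of_surjective _ e.surjective]

/-- a direct product of core-free subgroups is core-free -/
theorem core_pi {I : Type} [Fintype I] {T : I → Type} [∀ i, Group (T i)] [∀ i, Finite (T i)]
    (c : I → ℕ) (h : ∀ i, ∃ U : Subgroup (T i), U.normalCore = ⊥ ∧ U.index = c i) :
    ∃ U : Subgroup (∀ i, T i), U.normalCore = ⊥ ∧ U.index = ∏ i, c i := by
  classical
  choose U hU hc using h
  refine ⟨Subgroup.pi Set.univ U, ?_, ?_⟩
  · rw [eq_bot_iff]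
    intro x hx
    rw [Subgroup.mem_bot]
    funext i
    have h1 : x i ∈ (U i).normalCore := by
      intro t
      have h2 := hx (Pi.mulSingle i t)
      have h3 := (Subgroup.mem_pi _).1 h2 i (Set.mem_univ i)
      simpa using h3
    rw [hU i, Subgroup.mem_bot] at h1
    exact h1
  · have e : (Subgroup.pi Set.univ U) ≃ ∀ i, U i :=
      { toFun := fun x i => ⟨x.1 i, (Subgroup.mem_pi _).1 x.2 i (Set.mem_univ i)⟩
        invFun := fun y => ⟨fun i => (y i : T i), (Subgroup.mem_pi _).2 fun i _ => (y i).2⟩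
        left_inv := fun x => rfl
        right_inv := fun y => rfl }
    have h1 := (Subgroup.pi Set.univ U).card_mul_index
    rw [Nat.card_congr e, Nat.card_pi, Nat.card_pi] at h1
    have h2 : ∏ i, Nat.card (T i) = (∏ i, Nat.card (U i)) * ∏ i, c i := by
      rw [← Finset.prod_mul_distrib]
      refine Finset.prod_congr rfl fun i _ => ?_
      rw [← hc i, Subgroup.card_mul_index]
    rw [h2] at h1
    exact Nat.eq_of_mul_eq_mul_left (Finset.prod_pos fun i _ => Nat.card_pos) h1

theorem fac3 {n : ℕ} (hn : 8 ≤ n) : 16 * n ^ 3 ≤ n.factorial := by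
  induction n, hn using Nat.le_induction with
  | base => decide
  | succ m hm ih =>
    rw [Nat.factorial_succ]
    have h1 : 16 * (m + 1) ^ 3 ≤ (m + 1) * (16 * m ^ 3) := by
      have h2 : (m + 1) ^ 2 ≤ m ^ 3 := by nlinarith
      nlinarith
    exact h1.trans (Nat.mul_le_mul_left _ ih)

theorem fac2 {n : ℕ} (hn : 8 ≤ n) : n ^ 2 ≤ n.factorial := by
  have h1 := fac3 hn
  have h2 : n ^ 2 ≤ 16 * n ^ 3 := by
    have : n ^ 2 * 1 ≤ n ^ 2 * (16 * n) := Nat.mul_le_mul_left _ (by omega)
    nlinarith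
  exact h2.trans h1

/-- the bound for products of wreath products -/
theorem bound_pi {I : Type} [Fintype I] (a n : I → ℕ) (ha : ∀ i, 1 ≤ a i) (hn : ∀ i, 8 ≤ n i)
    (g : ℕ) (hg : 1 ≤ g) (j : I) (hj : g ≤ n j) :
    8 * (∏ i, a i * n i) * ((∏ i, a i * n i) * g + 1) ≤ ∏ i, a i ^ n i * (n i).factorial := by
  classical
  set v := ∏ i, a i * n i with hv
  have hv1 : 1 ≤ v := Nat.one_le_iff_ne_zero.2 (Finset.prod_ne_zero_iff.2 fun i _ => by
    have := ha i; have := hn i; positivity)
  have h1 : 8 * v * (v * g + 1) ≤ 16 * g * v ^ 2 := by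
    have : 1 ≤ v * g := Nat.one_le_iff_ne_zero.2 (by positivity)
    nlinarith
  refine h1.trans ?_
  have h2 : v ^ 2 = (a j * n j) ^ 2 * ∏ i ∈ Finset.univ.erase j, (a i * n i) ^ 2 := by
    rw [hv, ← Finset.prod_pow, Finset.mul_prod_erase Finset.univ (fun i => (a i * n i) ^ 2)
      (Finset.mem_univ j)]
  have h3 : ∏ i ∈ Finset.univ.erase j, (a i * n i) ^ 2 ≤
      ∏ i ∈ Finset.univ.erase j, a i ^ n i * (n i).factorial := by
    refine Finset.prod_le_prod' fun i _ => ?_
    rw [mul_pow]
    exact Nat.mul_le_mul (Nat.pow_le_pow_right (ha i) (by have := hn i; omega)) (fac2 (hn i))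
  have h4 : 16 * g * (a j * n j) ^ 2 ≤ a j ^ n j * (n j).factorial := by
    calc 16 * g * (a j * n j) ^ 2 = a j ^ 2 * (16 * (g * n j ^ 2)) := by ring
      _ ≤ a j ^ n j * (16 * (n j * n j ^ 2)) := Nat.mul_le_mul
          (Nat.pow_le_pow_right (ha j) (by have := hn j; omega))
          (Nat.mul_le_mul_left _ (Nat.mul_le_mul_right _ hj))
      _ = a j ^ n j * (16 * n j ^ 3) := by ring
      _ ≤ _ := Nat.mul_le_mul_left _ (fac3 (hn j))
  calc 16 * g * v ^ 2 = (16 * g * (a j * n j) ^ 2) *
        ∏ i ∈ Finset.univ.erase j, (a i * n i) ^ 2 := by rw [h2]; ring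
    _ ≤ (a j ^ n j * (n j).factorial) * ∏ i ∈ Finset.univ.erase j, a i ^ n i * (n i).factorial :=
        Nat.mul_le_mul h4 h3
    _ = _ := Finset.mul_prod_erase Finset.univ (fun i => a i ^ n i * (n i).factorial)
        (Finset.mem_univ j)

end Pool.Agent.U902.ML
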