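import Pool.Agent.U737.MN.Done
import Pool.Agent.N600.UK.Main
import Pool.Agent.N600.ZQ.T6
import Pool.Agent.Y793.Ml
import Pool.Agent.U902.ML.Core
import Pool.Prelude.Def_F_b1b78ff3

/-!
# Malle's asymptotic formula for `C₂ ≀ X`, `X` an extension, acting on `P`
-/

set_option autoImplicit false
set_option linter.unusedSectionVars false

open Filter Topology
open Nfff32c05
open Pool.Agent.H391R2 (Wr)

namespace Pool.Agent.U902.ML

theorem gal_of_realizable (K H : Type) [Field K] [NumberField K] [Group H] [Finite H]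
    (h : IsRealizable K H) : (Pool.Agent.TH444.ML.Gal K (AlgebraicClosure K) H).Nonempty := by
  obtain ⟨⟨L, i1, i2, i3, e⟩⟩ := h.exists_realization
  exact Pool.Agent.Y793.gal_of_real K _ H ⟨L, i1, i2, i3, ⟨e⟩⟩

theorem realizable_of_gal (K H : Type) [Field K] [NumberField K] [Group H]
    (h : (Pool.Agent.TH444.ML.Gal K (AlgebraicClosure K) H).Nonempty) : IsRealizable K H := by
  obtain ⟨M, h1, h2, ⟨e⟩⟩ := h
  exact ⟨⟨⟨M, inferInstance, inferInstance, h2, e.symm⟩⟩⟩

theorem realizable_of_cnt {K H P : Type} [Field K] [NumberField K] [Group H] [Finite H]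
    [MulAction H P] [Finite P] [Nonempty P] [MulAction.IsPretransitive H P] [FaithfulSMul H P]
    {n : ℕ} {G : Subgroup (Equiv.Perm (Fin n))} (hG : Pool.Agent.U737.MN.IsC2Wr H P G) {B : ℝ}
    {L : IntermediateField K (AlgebraicClosure K)} (hL : L ∈ Pool.Agent.TH444.ML.Cnt K G B) :
    IsRealizable K H := by
  rw [Pool.Agent.U737.MN.cnt_eq K hG] at hL
  obtain ⟨h1, h2, -⟩ := hL
  obtain ⟨M, hM⟩ := (Pool.Agent.U737.MN.inp.wrIff K (AlgebraicClosure K) H P L).1 ⟨h1, h2⟩
  obtain ⟨⟨hfd, e, he⟩, -⟩ := hM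
  obtain ⟨E, -⟩ := Pool.Agent.U875.MN.group_iso (K := K) (Ω := AlgebraicClosure K) e he
    (fun h hh => FaithfulSMul.eq_of_smul_eq_smul (α := P) (fun x => by rw [hh x, one_smul]))
  have hN : Normal K (IntermediateField.normalClosure K M (AlgebraicClosure K)) := inferInstance
  have hgal : IsGalois K (IntermediateField.normalClosure K M (AlgebraicClosure K)) := ⟨⟩
  exact ⟨⟨⟨IntermediateField.normalClosure K M (AlgebraicClosure K), inferInstance, inferInstance,
    hgal, E.symm⟩⟩⟩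

/-- the index of a core-free subgroup for products of wreath products -/
theorem prod_core {X : Type} [Group X] (M : Subgroup X) [M.Normal]
    {I : Type} [Fintype I] (A : I → Type) [∀ i, Group (A i)] [∀ i, Finite (A i)]
    (n : I → ℕ) (hn : ∀ i, 8 ≤ n i) (e : M ≃* ∀ i, Wr (A i) (n i)) :
    ∃ U : Subgroup X, U.normalCore = ⊥ ∧
      U.index = (∏ i, Nat.card (A i) * n i) * Nat.card (X ⧸ M) := by
  have hfin : ∀ i, Finite (Wr (A i) (n i)) := fun i =>
    Pool.Agent.H391R2.T4.finite_wr (A i) (n i)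
  obtain ⟨V, hV, hi⟩ := core_pi (T := fun i => Wr (A i) (n i)) (fun i => Nat.card (A i) * n i)
    (fun i => Pool.Agent.TH444.ML.wr_core (A i) (n i) (by have := hn i; omega))
  obtain ⟨U, hU, h⟩ := core_up M e V hV
  refine ⟨U, hU, ?_⟩
  rw [h, hi]
  rfl

/-- the size of the group -/
theorem prod_bound {X : Type} [Group X] [Finite X] (M : Subgroup X) [M.Normal]
    {I : Type} [Fintype I] (A : I → Type) [∀ i, Group (A i)] [∀ i, Finite (A i)]
    (n : I → ℕ) (hn : ∀ i, 8 ≤ n i) (e : M ≃* ∀ i, Wr (A i) (n i)) (j : I)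
    (hj : Nat.card (X ⧸ M) ≤ n j) (q : ℕ)
    (hq : q = (∏ i, Nat.card (A i) * n i) * Nat.card (X ⧸ M)) :
    8 * q * (q + 1) ≤ Nat.card X := by
  have h1 := bound_pi (fun i => Nat.card (A i)) n (fun i => Nat.card_pos) hn
    (Nat.card (X ⧸ M)) Nat.card_pos j hj
  have h2 : Nat.card X = (∏ i, Nat.card (A i) ^ n i * (n i).factorial) * Nat.card (X ⧸ M) := by
    have h3 : Nat.card X = Nat.card M * M.index := (Subgroup.card_mul_index M).symm
    rw [h3, Nat.card_congr e.toEquiv, Nat.card_pi]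
    simp only [Pool.Agent.TH444.ML.wr_card]
    rfl
  rw [h2, hq]
  calc 8 * ((∏ i, Nat.card (A i) * n i) * Nat.card (X ⧸ M)) *
        ((∏ i, Nat.card (A i) * n i) * Nat.card (X ⧸ M) + 1) =
      (8 * (∏ i, Nat.card (A i) * n i) *
        ((∏ i, Nat.card (A i) * n i) * Nat.card (X ⧸ M) + 1)) * Nat.card (X ⧸ M) := by ring
    _ ≤ _ := Nat.mul_le_mul_right _ h1

end Pool.Agent.U902.ML
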